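import Pool.Agent.H290.CT.Defs

/-!
# Basic facts
-/

namespace Pool.Agent.H290.CT

open Polynomial Finset
open scoped Classical

set_option linter.unusedSectionVars false
set_option linter.deprecated false

section sets

variable {K : Type} [Field K] [Fintype K]

lemma mem_V {n : ℕ} {p : K[X]} : p ∈ V K n ↔ p.degree < n := by
  unfold V
  rw [mem_image]
  constructor
  · rintro ⟨c, -, rfl⟩
    refine lt_of_le_of_lt (degree_sum_le _ _) ?_
    rw [Finset.sup_lt_iff (by exact WithBot.bot_lt_coe n)]
    intro i _
    refine lt_of_le_of_lt (degree_C_mul_X_pow_le _ _) ?_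
    exact_mod_cast i.2
  · intro h
    refine ⟨fun i => p.coeff i, mem_univ _, ?_⟩
    ext k
    rw [finset_sum_coeff]
    simp only [coeff_C_mul, coeff_X_pow, mul_ite, mul_one, mul_zero]
    by_cases hk : k < n
    · rw [Finset.sum_eq_single (⟨k, hk⟩ : Fin n)]
      · simp
      · intro b _ hb
        rw [if_neg]
        intro h1
        exact hb (Fin.ext h1.symm)
      · simp
    · rw [Finset.sum_eq_zero]
      · rw [coeff_eq_zero_of_degree_lt]
        refine lt_of_lt_of_le h ?_
        exact_mod_cast not_lt.mp hk
      · intro b _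
        rw [if_neg]
        intro h1
        exact hk (h1 ▸ b.2)

lemma card_V (n : ℕ) : (V K n).card = Fintype.card K ^ n := by
  unfold V
  rw [card_image_of_injective]
  · simp
  · intro c d h
    funext i
    have h1 := congrArg (fun p : K[X] => p.coeff i) h
    simp only [finset_sum_coeff, coeff_C_mul, coeff_X_pow, mul_ite, mul_one, mul_zero] at h1
    rw [Finset.sum_eq_single i, Finset.sum_eq_single i] at h1
    · simpa using h1
    · intro b _ hb
      rw [if_neg]
      intro h2
      exact hb (Fin.ext h2.symm)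
    · simp
    · intro b _ hb
      rw [if_neg]
      intro h2
      exact hb (Fin.ext h2.symm)
    · simp

lemma zero_mem_V (n : ℕ) : (0 : K[X]) ∈ V K n := by
  rw [mem_V, degree_zero]; exact WithBot.bot_lt_coe n

lemma add_mem_V {n : ℕ} {p r : K[X]} (hp : p ∈ V K n) (hr : r ∈ V K n) : p + r ∈ V K n := by
  rw [mem_V] at *
  exact lt_of_le_of_lt (degree_add_le _ _) (max_lt hp hr)

lemma sub_mem_V {n : ℕ} {p r : K[X]} (hp : p ∈ V K n) (hr : r ∈ V K n) : p - r ∈ V K n := by
  rw [mem_V] at *
  exact lt_of_le_of_lt (degree_sub_le _ _) (max_lt hp hr)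

lemma mem_M {m : ℕ} {p : K[X]} : p ∈ M K m ↔ p.Monic ∧ p.natDegree = m := by
  unfold M
  rw [mem_image]
  constructor
  · rintro ⟨r, hr, rfl⟩
    rw [mem_V] at hr
    refine ⟨monic_X_pow_add hr, ?_⟩
    rw [natDegree_add_eq_left_of_degree_lt (by rw [degree_X_pow]; exact hr), natDegree_X_pow]
  · rintro ⟨h1, h2⟩
    refine ⟨p - X ^ m, ?_, by ring⟩
    rw [mem_V]
    have : p.degree = m := by rw [degree_eq_natDegree h1.ne_zero, h2]
    rw [← this]
    refine degree_sub_lt ?_ h1.ne_zero ?_
    · rw [this, degree_X_pow]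
    · rw [h1.leadingCoeff, leadingCoeff_X_pow]

lemma card_M (m : ℕ) : (M K m).card = Fintype.card K ^ m := by
  unfold M
  rw [card_image_of_injective _ (add_right_injective _), card_V]

/-- A sum over `V K n` is invariant under translation by an element of `V K n`. -/
lemma sum_V_add {A : Type} [AddCommMonoid A] {n : ℕ} {w : K[X]} (hw : w ∈ V K n) (F : K[X] → A) :
    ∑ x ∈ V K n, F (x + w) = ∑ x ∈ V K n, F x := by
  refine Finset.sum_bij (fun x _ => x + w) (fun x hx => add_mem_V hx hw)
    (fun x _ y _ h => add_right_cancel h) (fun y hy => ⟨y - w, sub_mem_V hy hw, by ring⟩)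
    (fun x _ => rfl)

end sets

section psi

variable {K : Type} [Field K]

lemma psi_sq_one (x : K) : psi x * psi x = 1 := by
  unfold psi; split_ifs <;> norm_num

lemma psi_cases (x : K) : psi x = 1 ∨ psi x = -1 := by
  unfold psi; split_ifs <;> simp

lemma psi_zero : psi (0 : K) = 1 := by
  unfold psi; rw [if_pos ⟨0, by ring⟩]

variable [CharP K 2]

lemma two0 : (2 : K) = 0 := by
  have := CharP.cast_eq_zero K 2
  exact_mod_cast this

lemma psi_sq (x : K) : psi (x ^ 2) = psi x := by
  unfold psi
  congr 1
  rw [eq_iff_iff]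
  constructor
  · rintro ⟨y, hy⟩
    exact ⟨y + x, by linear_combination hy + (x ^ 2 + y * x) * two0 (K := K)⟩
  · rintro ⟨y, hy⟩
    exact ⟨y + x, by linear_combination hy + (x + y * x) * two0 (K := K)⟩

variable [Fintype K]

/-- The Artin-Schreier map as an additive homomorphism. -/
noncomputable def asm : K →+ K where
  toFun y := y ^ 2 + y
  map_zero' := by ring
  map_add' x y := by linear_combination (x * y) * two0 (K := K)

lemma asm_apply (y : K) : asm y = y ^ 2 + y := rfl

lemma card_ker_asm : Nat.card (asm (K := K)).ker = 2 := by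
  have h1 : ((asm (K := K)).ker : Set K) = {0, 1} := by
    ext y
    simp only [SetLike.mem_coe, AddMonoidHom.mem_ker, asm_apply, Set.mem_insert_iff,
      Set.mem_singleton_iff]
    constructor
    · intro h
      have : y * (y + 1) = 0 := by linear_combination h
      rcases mul_eq_zero.mp this with h | h
      · exact Or.inl h
      · right; linear_combination h - two0 (K := K)
    · rintro (h | h)
      · rw [h]; ring
      · rw [h]; linear_combination two0 (K := K)
  have h2 : Nat.card (asm (K := K)).ker = Set.ncard ({0, 1} : Set K) := by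
    rw [← h1]; rfl
  rw [h2, Set.ncard_pair zero_ne_one]

lemma index_asm : (asm (K := K)).range.index = 2 := by
  have h1 := (asm (K := K)).range.index_mul_card
  have h2 : Nat.card (asm (K := K)).ker * Nat.card (asm (K := K)).range = Nat.card K := by
    have e1 := AddSubgroup.card_mul_index (asm (K := K)).ker
    rw [AddSubgroup.index_ker] at e1
    exact e1
  rw [card_ker_asm, ← h1] at h2
  have h3 : 0 < Nat.card (asm (K := K)).range := Nat.card_pos
  exact (Nat.eq_of_mul_eq_mul_right h3 h2).symm

lemma psi_eq_one_iff (x : K) : psi x = 1 ↔ x ∈ (asm (K := K)).range := by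
  unfold psi
  rw [AddMonoidHom.mem_range]
  simp only [asm_apply]
  split_ifs with h
  · simp [h]
  · simp [h]

lemma psi_add (x y : K) : psi (x + y) = psi x * psi y := by
  have h := AddSubgroup.add_mem_iff_of_index_two (index_asm (K := K)) (a := x) (b := y)
  rw [← psi_eq_one_iff, ← psi_eq_one_iff, ← psi_eq_one_iff] at h
  rcases psi_cases x with hx | hx <;> rcases psi_cases y with hy | hy <;>
    rcases psi_cases (x + y) with hxy | hxy <;> simp_all

lemma exists_psi_neg_one : ∃ x : K, psi x = -1 := by
  by_contra hcon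
  push_neg at hcon
  have h1 : (asm (K := K)).range = ⊤ := by
    rw [eq_top_iff]
    intro x _
    rw [← psi_eq_one_iff]
    rcases psi_cases x with h | h
    · exact h
    · exact absurd h (hcon x)
  have h2 := index_asm (K := K)
  rw [h1, AddSubgroup.index_top] at h2
  norm_num at h2

end psi

section rsR

variable {R : Type} [CommRing R]

lemma rs_add (N N' D : R[X]) : rs (N + N') D = rs N D + rs N' D := by
  unfold rs; rw [add_modByMonic, coeff_add]

lemma rs_neg (N D : R[X]) : rs (-N) D = -rs N D := by
  unfold rs; rw [neg_modByMonic, coeff_neg]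

lemma rs_sub (N N' D : R[X]) : rs (N - N') D = rs N D - rs N' D := by
  rw [sub_eq_add_neg, rs_add, rs_neg, sub_eq_add_neg]

lemma rs_C_mul (c : R) (N D : R[X]) : rs (C c * N) D = c * rs N D := by
  unfold rs; rw [← smul_eq_C_mul, smul_modByMonic, coeff_smul, smul_eq_mul]

lemma rs_mul_self (N : R[X]) {D : R[X]} (hD : D.Monic) : rs (N * D) D = 0 := by
  unfold rs
  rw [mul_self_modByMonic hD, coeff_zero]

variable [Nontrivial R]

/-- Fractions of degree at most `-2` have residue zero (also true for `N = 0`). -/
lemma rs_small' {N D : R[X]} (hD : D.Monic) (h : N.natDegree + 2 ≤ D.natDegree) : rs N D = 0 := by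
  unfold rs
  have h1 : N.degree < D.degree := by
    rw [degree_eq_natDegree hD.ne_zero]
    refine lt_of_le_of_lt degree_le_natDegree ?_
    exact_mod_cast (by omega : N.natDegree < D.natDegree)
  rw [(modByMonic_eq_self_iff hD).mpr h1]
  apply coeff_eq_zero_of_natDegree_lt
  omega

/-- Fractions of degree `-1`. -/
lemma rs_top {N D : R[X]} (hD : D.Monic) (h : N.natDegree + 1 = D.natDegree) :
    rs N D = N.leadingCoeff := by
  unfold rs
  have h1 : N.degree < D.degree := by
    rw [degree_eq_natDegree hD.ne_zero]
    refine lt_of_le_of_lt degree_le_natDegree ?_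
    exact_mod_cast (by omega : N.natDegree < D.natDegree)
  rw [(modByMonic_eq_self_iff hD).mpr h1, ← h, Nat.add_sub_cancel, coeff_natDegree]

lemma rs_mul_right (N : R[X]) {D G : R[X]} (hD : D.Monic) (hG : G.Monic) :
    rs (N * G) (D * G) = rs N D := by
  unfold rs
  have h1 : (N * G) %ₘ (D * G) = (N %ₘ D) * G := by
    have h2 : N * G = (N %ₘ D) * G + (D * G) * (N /ₘ D) := by
      have := modByMonic_add_div N D
      linear_combination (-G) * this
    have h3 : ((N %ₘ D) * G).degree < (D * G).degree := by
      rw [hG.degree_mul, hG.degree_mul]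
      have h4 := degree_modByMonic_lt N hD
      exact WithBot.add_lt_add_right (by rw [Ne, degree_eq_bot]; exact hG.ne_zero) h4
    have h5 := div_modByMonic_unique (N /ₘ D) ((N %ₘ D) * G) (hD.mul hG) ⟨h2.symm, h3⟩
    exact h5.2
  rw [h1, hD.natDegree_mul hG]
  by_cases hd : D.natDegree = 0
  · have : D = 1 := hD.natDegree_eq_zero.mp hd
    rw [this]; simp
  · rw [show D.natDegree + G.natDegree - 1 = (D.natDegree - 1) + G.natDegree by omega]
    have h6 : (N %ₘ D).natDegree ≤ D.natDegree - 1 := by
      have := natDegree_modByMonic_lt N hD (by rintro rfl; simp at hd)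
      omega
    have h7 := coeff_mul_add_eq_of_natDegree_le h6 (le_refl G.natDegree)
    rw [h7, coeff_natDegree, hG.leadingCoeff, mul_one]

/-- Equality of fractions. -/
lemma rs_congr {N D N' D' : R[X]} (hD : D.Monic) (hD' : D'.Monic) (h : N * D' = N' * D) :
    rs N D = rs N' D' := by
  rw [← rs_mul_right N hD hD', ← rs_mul_right N' hD' hD, h, mul_comm D D']

end rsR

section rs

variable {K : Type} [Field K]

variable [Fintype K] [CharP K 2]

lemma ee_add (N N' D : K[X]) : ee (N + N') D = ee N D * ee N' D := by
  unfold ee; rw [rs_add, psi_add]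

lemma ee_congr {N D N' D' : K[X]} (hD : D.Monic) (hD' : D'.Monic) (h : N * D' = N' * D) :
    ee N D = ee N' D' := by
  unfold ee; rw [rs_congr hD hD' h]

lemma ee_small {N D : K[X]} (hD : D.Monic) (h : N.natDegree + 2 ≤ D.natDegree) : ee N D = 1 := by
  unfold ee; rw [rs_small' hD h, psi_zero]

lemma ee_mul_self (N : K[X]) {D : K[X]} (hD : D.Monic) : ee (N * D) D = 1 := by
  unfold ee; rw [rs_mul_self N hD, psi_zero]

lemma ee_cases (N D : K[X]) : ee N D = 1 ∨ ee N D = -1 := psi_cases _

end rs

end Pool.Agent.H290.CT
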