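import Mathlib

/-!
# Definitions: the polynomials `a ^ 2 + X` over a finite field of characteristic two

`V K n`: the polynomials of degree `< n`.  `M K m`: the monic polynomials of degree `m`.
`mu`: the Moebius function of polynomials.  `psi`: the additive character of `K` with values
`1, -1`.  `rs N D`: the residue at infinity of the fraction `N / D` (`D` monic), that is the
coefficient of `t ^ (-1)` in the expansion of `N / D` in powers of `1 / t`; `ee N D = psi (rs N D)`.
`ph a = ee (X * a' ^ 3) a`.  `Lp`, `Mp`, `Del`: see the comments.
-/

namespace Pool.Agent.H290.CT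

open Polynomial Finset
open scoped Classical

noncomputable section

/-- The additive character of `K` (a finite field of characteristic two) with values `1`, `-1`. -/
def psi {K : Type} [Field K] (x : K) : ℤ := if ∃ y : K, y ^ 2 + y = x then 1 else -1

/-- The Moebius function of a polynomial. -/
def mu {K : Type} [Field K] (f : K[X]) : ℤ :=
  if Squarefree f then (-1) ^ (UniqueFactorizationMonoid.normalizedFactors f).card else 0

/-- The polynomials of degree less than `n`. -/
def V (K : Type) [Field K] [Fintype K] (n : ℕ) : Finset K[X] :=
  univ.image (fun c : Fin n → K => ∑ i, C (c i) * X ^ (i : ℕ))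

/-- The monic polynomials of degree `m`. -/
def M (K : Type) [Field K] [Fintype K] (m : ℕ) : Finset K[X] :=
  (V K m).image (fun p => X ^ m + p)

/-- The residue at infinity of `N / D`, for `D` monic. -/
def rs {R : Type} [CommRing R] (N D : R[X]) : R := (N %ₘ D).coeff (D.natDegree - 1)

/-- The additive character `psi` of the residue at infinity of `N / D`, for `D` monic. -/
def ee {K : Type} [Field K] (N D : K[X]) : ℤ := psi (rs N D)

/-- The phase of `a`. -/
def ph {K : Type} [Field K] (a : K[X]) : ℤ := ee (X * derivative a ^ 3) a

/-- The square root of the derivative of `f` (Cartier operator): in characteristic two over a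
perfect field the derivative of every polynomial is the square of a unique polynomial. -/
def cart {K : Type} [Field K] (f : K[X]) : K[X] :=
  if h : ∃ g : K[X], g ^ 2 = derivative f then h.choose else 0

/-- `Lp vs x` is the product of `x + c` over all subset sums `c` of the list `vs`. -/
def Lp {R : Type} [CommRing R] : List R → R → R
  | [], x => x
  | v :: vs, x => Lp vs x * Lp vs (x + v)

/-- `Mp vs` is the product of the nonzero-index subset sums of `vs`. -/
def Mp {R : Type} [CommRing R] : List R → R
  | [] => 1
  | v :: vs => Mp vs * Lp vs v

/-- `Del g vs θ` is the product of `g (θ + c)` over all subset sums `c` of the list `vs`. -/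
def Del {G : Type} [Add G] {R : Type} [Mul R] (g : G → R) : List G → G → R
  | [], θ => g θ
  | v :: vs, θ => Del g vs θ * Del g vs (θ + v)

/-- The average over lists `vs = [v₁, …, v_k]` with `v_i` in the `i`-th member of `Hs`. -/
def Av {G : Type} : List (Finset G) → (List G → ℝ) → ℝ
  | [], F => F []
  | H :: Hs, F => (∑ v ∈ H, Av Hs (fun vs => F (v :: vs))) / H.card

/-- The block `{X ^ (i * B) * u : deg u < B}`. -/
def Blk (K : Type) [Field K] [Fintype K] (B i : ℕ) : Finset K[X] :=
  (V K B).image (fun u => X ^ (i * B) * u)

/-- The list of blocks `[Blk B (k - 1), …, Blk B 0]`. -/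
def Blks (K : Type) [Field K] [Fintype K] (B : ℕ) : ℕ → List (Finset K[X])
  | 0 => []
  | k + 1 => Blk K B k :: Blks K B k

/-- The weight of a polynomial `f`: the product of the degrees of the two irreducible factors if
`f` has exactly two irreducible factors (counted with multiplicity), and `0` otherwise. -/
def w2 {K : Type} [Field K] (f : K[X]) : ℕ :=
  if (UniqueFactorizationMonoid.normalizedFactors f).card = 2 then
    ((UniqueFactorizationMonoid.normalizedFactors f).map natDegree).prod else 0

/-- The monic divisors of degree `j` of `f`. -/
def dv (K : Type) [Field K] [Fintype K] (j : ℕ) (f : K[X]) : Finset K[X] :=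
  (M K j).filter (fun d => d ∣ f)

/-- The sum of the Moebius function over the monic divisors of degree `j` of `f`. -/
def sd {K : Type} [Field K] [Fintype K] (j : ℕ) (f : K[X]) : ℤ := ∑ d ∈ dv K j f, mu d

/-- `f` has no irreducible factor of degree less than `z`. -/
def Rough {K : Type} [Field K] (z : ℕ) (f : K[X]) : Prop :=
  ∀ P : K[X], Irreducible P → P ∣ f → z ≤ P.natDegree

end

end Pool.Agent.H290.CT
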