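import Pool.Agent.H290.CT.Base

/-!
# Statements, first batch (level of distribution of `mu (a ^ 2 + X)` in characteristic two)

Everywhere `K` is a finite field of characteristic two, `q = Fintype.card K`.  The file
`Base.lean` contains the basic facts (`mem_V`, `mem_M`, `card_V`, `psi_add`, `psi_sq`,
`exists_psi_neg_one`, `rs_add`, `rs_mul_right`, `rs_congr`, `rs_small'`, `rs_top`, `ee_congr`, ...).
-/

namespace Pool.Agent.H290.CT

open Polynomial Finset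
open scoped Classical

/-- **S_cart** (Cartier operator).  `cart f` is the square root of `f'`.

Proof.  `K` is perfect: every `c : K` is a square.  If `f = ∑ c_i X ^ i` then
`f' = ∑ c_{2i+1} X ^ (2 i)` (as `2 = 0`), the square of `∑ √c_{2i+1} X ^ i`; so the `dite` in the
definition of `cart` takes the first branch and (1) holds.  (2): compare the coefficients at `2 i` in
`cart f ^ 2 = f'` (`(g ^ 2).coeff (2 i) = g.coeff i ^ 2` in characteristic two:
`Polynomial.expand`/`frobenius`, `Polynomial.map_frobenius_expand`).  (3): both sides have the same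
square (`g ^ 2 = h ^ 2 → g = h` in characteristic two).  (4): iterate (2).
(5): (`ee_sq`) `ee (N ^ 2) (D ^ 2) = 1` and (`ee_X_sq`) `ee (X * N ^ 2) (D ^ 2) = ee N D` for `D` monic:
with `r = N %ₘ D` one has `N ^ 2 %ₘ D ^ 2 = r ^ 2` and `X * N ^ 2 %ₘ D ^ 2 = X * r ^ 2` (degrees!), the
coefficient of `r ^ 2` at the odd position `2 d - 1` is `0`, the one at `2 d - 2` is
`(r.coeff (d - 1)) ^ 2`; use `psi_sq`.  (6): iterate: write `f = f0 ^ 2 + X * (cart f) ^ 2`; then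
`f * w ^ 2 = (f0 * w) ^ 2 + X * (cart f * w) ^ 2`, so `ee (f * w ^ 2) (a ^ 2) = ee (cart f * w) a` by
(5); apply this with `w ^ (2 ^ k)`, `a ^ (2 ^ k)`. -/
def SCart : Prop := ∀ (K : Type) [Field K] [Fintype K] [CharP K 2],
  (∀ f : K[X], cart f ^ 2 = derivative f) ∧
  (∀ (f : K[X]) (i : ℕ), (cart f).coeff i ^ 2 = f.coeff (2 * i + 1)) ∧
  (∀ f g : K[X], cart (f + g) = cart f + cart g) ∧
  (∀ (k : ℕ) (f : K[X]) (i : ℕ),
    ((cart^[k] f).coeff i) ^ (2 ^ k) = f.coeff (2 ^ k * (i + 1) - 1)) ∧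
  (∀ (N D : K[X]), D.Monic → ee (N ^ 2) (D ^ 2) = 1 ∧ ee (X * N ^ 2) (D ^ 2) = ee N D) ∧
  (∀ (k : ℕ) (f w a : K[X]), a.Monic →
    ee (f * w ^ (2 ^ k)) (a ^ (2 ^ k)) = ee (cart^[k] f * w) a)

/-- **S_lp** (the additive polynomials `Lp`).  All by induction on the list.

(1) additivity: `L(x + y)·L(x + y + v) = (L x + L y)(L x + L y + L v)` for `L = Lp vs`, and the
product expands (with `2 = 0`) to `(L x ^ 2 + L x L v) + (L y ^ 2 + L y L v)`.
(2) scaling: `Lp (vs.map (E v^2)) (E x^2) = E ^ (2 ^ k) (Lp vs x) ^ 2`.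
(3) scaling of `Mp`: `Mp (vs.map (E v^2)) * E = E ^ (2 ^ k) (Mp vs) ^ 2`.
(4) `Lp vs x` is monic of degree `2 ^ k m` if `x` is monic of degree `m` and all members of `vs` have
degree `< m` (then all `x + c` are monic of degree `m`).
(5), (6): degree bounds, with `n = deg x ≥` the degrees of the members of `vs`:
`L_{v :: vs}(x) = L(x) (L(x) + L(v)) = L(x) ^ 2 + L(x) L(v)`; so
`L_{v :: vs}(x) + x ^ (2 ^ (k+1)) = (L(x) + x ^ (2 ^ k)) ^ 2 + L(x) L(v)` (characteristic two), and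
`deg L(x) ≤ 2 ^ k n`, `deg L(v) ≤ 2 ^ k s`.  (5) `natDegree (Lp vs x) ≤ 2 ^ k n`; (6)
`2 * natDegree (Lp vs x + x ^ (2 ^ k)) ≤ 2 ^ k (n + s)`. -/
def SLp : Prop :=
  (∀ (R : Type) [CommRing R] [CharP R 2] (vs : List R) (x y : R),
    Lp vs (x + y) = Lp vs x + Lp vs y) ∧
  (∀ (R : Type) [CommRing R] [CharP R 2] (E : R) (vs : List R) (x : R),
    Lp (vs.map (fun v => E * v ^ 2)) (E * x ^ 2) = E ^ (2 ^ vs.length) * (Lp vs x) ^ 2) ∧
  (∀ (R : Type) [CommRing R] [CharP R 2] (E : R) (vs : List R),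
    Mp (vs.map (fun v => E * v ^ 2)) * E = E ^ (2 ^ vs.length) * (Mp vs) ^ 2) ∧
  (∀ (K : Type) [Field K] (m : ℕ) (vs : List K[X]) (x : K[X]), x.Monic → x.natDegree = m →
    (∀ v ∈ vs, v.degree < m) → (Lp vs x).Monic ∧ (Lp vs x).natDegree = 2 ^ vs.length * m) ∧
  (∀ (K : Type) [Field K] (s n : ℕ) (vs : List K[X]) (x : K[X]), x.natDegree ≤ n →
    (∀ v ∈ vs, v.natDegree ≤ s) → s ≤ n → (Lp vs x).natDegree ≤ 2 ^ vs.length * n) ∧
  (∀ (K : Type) [Field K] [CharP K 2] (s n : ℕ) (vs : List K[X]) (x : K[X]), x.natDegree ≤ n →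
    (∀ v ∈ vs, v.natDegree ≤ s) → s ≤ n →
    2 * (Lp vs x + x ^ (2 ^ vs.length)).natDegree ≤ 2 ^ vs.length * (n + s))

/-- **S_b1** (the phase after differencing).

`P ^ 2 = (a E)' = a' E + a E'`, so `E a' = P ^ 2 + a E'` and
`ph a = ee (X a'^3) a = ee (X (P^2 + a E')^3) (E^3 a)
 = ee (X P^6) (E^3 a) * ee (X P^4 E') (E^3) * ee (X P^2 a E'^2) (E^3) * ee (X a^2 E'^3) (E^3)`
(`(x + y)^3 = x^3 + x^2 y + x y^2 + y^3` in characteristic two; `ee_add`, `ee_congr`).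
For `x` with `deg (E x^2) < m` the polynomial `a_x = a + E x^2` is monic of degree `m` and has the same
`P` (`(E^2 x^2)' = 0`).  Hence `ph (a + E x^2) = c * χ x * ee (X P^6) (E^3 (a + E x^2))` with `c = ±1`
independent of `x` and `χ x = ee (X P^2 x^2 E'^2) (E^2) * ee (X x^4 E'^3) E`, which satisfies
`χ (x + y) = χ x χ y`, `χ = ±1`.
Now `Del` is multiplicative in `g`, `Del (const c) vs x = c ^ (2 ^ k) = 1` for `k ≥ 1`, and
`Del χ vs x = 1` for `k ≥ 2` (`Del χ [v] x = χ x * χ (x + v) = χ v` is constant).  So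
`Del (fun x => ph (a + E x^2)) vs 0 = Del (fun x => ee (X P^6) (E^3 (a + E x^2))) vs 0`.
By induction on the list, with `σs = vs.map (E v^2)`, `y = a + E x^2` (all `y + (subset sums of σs)`
are monic of degree `m`):
`Del (fun x => ee N (E^3 (a + E x^2))) vs x = ee (N * Mp σs) (E^3 * Lp σs y)`:
the product of the values at `x` and `x + v` is
`ee (N Mp σs (L(y + σ) + L(y))) (E^3 L(y) L(y + σ))`, `L(y + σ) + L(y) = L(σ)` (additivity, SLp (1)).
Finally `Mp σs * E = E ^ (2^k) (Mp vs)^2` (SLp (3)) and `ee_congr` (cancel `E^3`; `2 ^ k ≥ 4`).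

You may assume `SLp` and `SCart`. -/
def SB1 : Prop := ∀ (K : Type) [Field K] [Fintype K] [CharP K 2] (a E P : K[X]) (vs : List K[X])
  (m j s : ℕ), a.Monic → a.natDegree = m → E.Monic → E.natDegree = j →
  P ^ 2 = derivative (a * E) → 2 ≤ vs.length → (∀ v ∈ vs, v.natDegree ≤ s) → j + 2 * s < m →
  Del (fun x => ph (a + E * x ^ 2)) vs 0 =
    ee (X * P ^ 6 * E ^ (2 ^ vs.length - 4) * Mp vs ^ 2) (Lp (vs.map (fun v => E * v ^ 2)) a)

/-- **S_b2** (second order expansion).  In `K(t)`, `t = X`, characteristic two: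
`1 / (D + B^2) = 1 / D + B^2 / D^2 + B^4 / (D^2 (D + B^2))`.  Multiply by `X c^2`: the second term is
`X (c B / D)^2`, for which `ee (X (c B)^2) (D^2) = ee (c B) D` (SCart (5)), and the third one has
degree at most `-2`, so its `ee` is `1` (`ee_small`).  (`ee_add` over the common denominator
`D^2 (D + B^2)`, `ee_congr`.)  You may assume `SCart`. -/
def SB2 : Prop := ∀ (K : Type) [Field K] [Fintype K] [CharP K 2] (c B D : K[X]),
  D.Monic → (D + B ^ 2).Monic → (D + B ^ 2).natDegree = D.natDegree →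
  3 + 2 * c.natDegree + 4 * B.natDegree ≤ 3 * D.natDegree →
  ee (X * c ^ 2) (D + B ^ 2) = ee (X * c ^ 2) D * ee (c * B) D

/-- **S_count**.  Write `Π_ρ = (P0 + E ρ)^3 G`, a polynomial of degree exactly
`d = 3 (j + h) + deg G` for every `ρ` of degree `< h` (`P0 + E ρ` is monic of degree `j + h`),
`Q_ρ = cart^[k] Π_ρ`, `t0 = (d + 1) / 2^k` (floor).  By SCart (4), `Q_ρ.coeff l = 0` iff
`Π_ρ.coeff (2^k (l+1) - 1) = 0`.  Call `ρ` bad if `Q_ρ.coeff l = 0` for all `l ≥ t0 - D'`.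
Let `r0 = (d + 1) % 2^k`, so `d + 1 = 2^k t0 + r0`.
If `r0 = 0` and `D' ≥ 1`: the coefficient `l = t0 - 1` of `Q_ρ` corresponds to the leading coefficient
of `Π_ρ`, so no `ρ` is bad.  (`D' = 0`: the claim is `card ≤ q^h`.)
If `r0 ≥ 1`: put `r_s = r0 + 2^k s` for `0 ≤ s < D'`; then `1 ≤ r_s < 2^k D' ≤ h`, and
`2^k (t0 - s) - 1 = d - r_s` (also `s < t0` as `r_s ≤ h ≤ d`).  Let `U` be the span of the
`X^(h - r_s)`, `s < D'`, a subspace of `V K h` with `q^D'` elements.  Claim: two different bad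
`ρ1, ρ2` never have `ρ1 - ρ2 ∈ U`.  Otherwise `ρ1 - ρ2` has degree `h - r_s` for some `s`;
`P_i = P0 + E ρ_i`, `P1 - P2 = E (ρ1 - ρ2)` has degree `j + h - r_s`, and
`P1^3 - P2^3 = (P1 - P2)(P1^2 + P1 P2 + P2^2)`, the last factor having leading coefficient `1+1+1 = 1`
and degree `2 (j + h)`; so `Π_{ρ1} - Π_{ρ2}` has degree exactly `d - r_s = 2^k (t0 - s) - 1`; but
both `Π_{ρi}` have coefficient `0` there (bad, with `l = t0 - 1 - s ≥ t0 - D'`).  Contradiction.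
So `(ρ, u) ↦ ρ + u` from bad `× U` to `V K h` is injective, which gives the bound.
(For the counting one may take as `U` the image of `Fin D' → K`, `c ↦ ∑ s, C (c s) X^(h - r_s)`.)
You may assume `SCart`. -/
def SCount : Prop := ∀ (K : Type) [Field K] [Fintype K] [CharP K 2] (k h D' j : ℕ) (E P0 G : K[X]),
  E.Monic → E.natDegree = j → P0.Monic → P0.natDegree = j + h → G ≠ 0 → 2 ^ k * D' ≤ h →
  ((V K h).filter (fun ρ => ∀ l, (3 * (j + h) + G.natDegree + 1) / 2 ^ k ≤ l + D' →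
    (cart^[k] ((P0 + E * ρ) ^ 3 * G)).coeff l = 0)).card * Fintype.card K ^ D' ≤ Fintype.card K ^ h

/-- **S_vdc** (van der Corput / Weyl differencing over the groups `H`), any real valued `g`.

Put `A(g) = (∑_{θ ∈ V h} g θ) / q^h`.  Induction on `Hs`, for all `g`; `Hs = []` is trivial.
`Hs = H :: Hs'`: `A(g) = avg_θ avg_{v ∈ H} g(θ + v)` (`sum_V_add`), so by Cauchy-Schwarz
`A(g)^2 ≤ avg_θ (avg_{v ∈ H} g(θ + v))^2 = avg_{v,v' ∈ H} avg_θ g(θ + v) g(θ + v')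
 = avg_{v,v'} avg_θ g(θ) g(θ + v + v') = avg_{v ∈ H} avg_θ g(θ) g(θ + v)` (`H` is a group of exponent
two: for fixed `v` the map `v' ↦ v + v'` is a bijection of `H`; `v + v = 0`).  Hence
`|A(g)|^(2^(k+1)) = (A(g)^2)^(2^k) ≤ (avg_{v ∈ H} |A(g_v)|)^(2^k) ≤ avg_{v ∈ H} |A(g_v)|^(2^k)`
with `g_v θ = g θ * g (θ + v)` (power mean: `inner_le_nnorm_mul_nnorm`/`Finset.inner..`, or
`Real.pow_arith_mean_le_arith_mean_pow`), and the induction hypothesis for `g_v` together with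
`Del g_v vs θ = Del g (v :: vs) θ` (i.e. `= Del g vs θ * Del g vs (θ + v)`, by induction on `vs`). -/
def SVdc : Prop := ∀ (K : Type) [Field K] [Fintype K] [CharP K 2] (h : ℕ)
  (Hs : List (Finset K[X])),
  (∀ H ∈ Hs, H ⊆ V K h ∧ (0 : K[X]) ∈ H ∧ ∀ x ∈ H, ∀ y ∈ H, x + y ∈ H) →
  ∀ g : K[X] → ℝ,
    |(∑ θ ∈ V K h, g θ) / (Fintype.card K : ℝ) ^ h| ^ (2 ^ Hs.length) ≤
      Av Hs (fun vs => |(∑ θ ∈ V K h, Del g vs θ) / (Fintype.card K : ℝ) ^ h|)

/-- **S_av** (averages over the blocks).  If `F vs ≤ 1` for all lists and `F vs ≤ ε` for all lists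
`vs` with `vs.length = k`, all members nonzero and the `i`-th member (from the left) in
`Blk K B (k - 1 - i)`, then the average of `F` over the blocks is at most `k / q^B + ε`.
Induction on `k`: the elements `v ≠ 0` of `Blk K B k` give at most `k / q^B + ε` (apply the induction
hypothesis to `vs ↦ F (v :: vs)`), and the element `v = 0` gives at most `1` (average of a function
`≤ 1`), with weight `1 / q^B` (`(Blk K B k).card = q^B`).  The condition on the lists is expressed by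
`List.Forall₂ (fun v H => v ∈ H ∧ v ≠ 0) vs (Blks K B k)`.  Also (linearity) `Av` commutes with finite
sums and division, and is monotone. -/
def SAv : Prop := ∀ (K : Type) [Field K] [Fintype K] [CharP K 2] (B k : ℕ),
  (∀ (F : List K[X] → ℝ) (ε : ℝ), 0 ≤ ε → (∀ vs, F vs ≤ 1) →
    (∀ vs, List.Forall₂ (fun v H => v ∈ H ∧ v ≠ 0) vs (Blks K B k) → F vs ≤ ε) →
    Av (Blks K B k) F ≤ k / (Fintype.card K : ℝ) ^ B + ε) ∧
  (∀ (Hs : List (Finset K[X])) (S : Finset K[X]) (F : K[X] → List K[X] → ℝ) (c : ℝ),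
    ∑ ρ ∈ S, Av Hs (F ρ) = Av Hs (fun vs => ∑ ρ ∈ S, F ρ vs) ∧
    ∀ ρ, Av Hs (F ρ) / c = Av Hs (fun vs => F ρ vs / c))

/-- **S_blk** (lists from the blocks).  Let `vs` satisfy
`List.Forall₂ (fun v H => v ∈ H ∧ v ≠ 0) vs (Blks K B k)`.  Then `vs.length = k`, all members are
nonzero of degree `< k B` (each is `X^(i B) u` with `deg u < B`, `i < k`), `Mp vs ≠ 0`, and
`deg (Mp vs) ≤ (2^k - 1) (k B)`.  More precisely, for `x ≠ 0` with all exponents `≥ k B`, or `x = 0`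
(i.e. `X ^ (k B) ∣ x`), and more generally for every `x` divisible by `X ^ (k B)`, `x ≠ 0`, one has
`Lp vs x ≠ 0`: a subset sum of `vs` has degree `< k B`, so it cannot be equal to `x`.
Induction: `Blks K B (k+1) = Blk K B k :: Blks K B k`, `Mp (v :: vs) = Mp vs * Lp vs v`, `v` is
divisible by `X ^ (k B)` and nonzero, of degree `< (k+1) B`.
`natDegree (Lp vs v) ≤ 2^k (k + 1) B`; total `≤ (2^k - 1) k B + 2^k (k+1) B ≤ (2^(k+1) - 1) (k+1) B`.
Also every block `H ∈ Blks K B k` is contained in `V K n` if `k B ≤ n`, contains `0` and is closed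
under addition. -/
def SBlk : Prop := ∀ (K : Type) [Field K] [Fintype K] [CharP K 2] (B k : ℕ),
  (∀ vs : List K[X], List.Forall₂ (fun v H => v ∈ H ∧ v ≠ 0) vs (Blks K B k) →
    vs.length = k ∧ (∀ v ∈ vs, v ≠ 0 ∧ v.natDegree < k * B) ∧ Mp vs ≠ 0 ∧
    (Mp vs).natDegree ≤ (2 ^ k - 1) * (k * B)) ∧
  (∀ n, k * B ≤ n → ∀ H ∈ Blks K B k, H ⊆ V K n ∧ (0 : K[X]) ∈ H ∧ ∀ x ∈ H, ∀ y ∈ H, x + y ∈ H) ∧
  (Blks K B k).length = k

/-- **S_split**.  Every polynomial of degree `< 2 h + 1` is `c X^(2h) + θ^2 + X ρ^2` for a unique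
`c : K` and unique `θ, ρ` of degree `< h` (`K` is perfect: the coefficients at even positions
`2 i < 2 h` are the squares of the coefficients of `θ`, the ones at odd positions `2 i + 1 < 2 h` are
the squares of the coefficients of `ρ`).  Hence the map `(c, θ, ρ) ↦ …` from `K × V h × V h` to
`V (2h+1)` is injective (coefficients), and bijective by cardinality. -/
def SSplit : Prop := ∀ (K : Type) [Field K] [Fintype K] [CharP K 2] (h : ℕ) (F : K[X] → ℝ),
  ∑ u ∈ V K (2 * h + 1), F u =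
    ∑ c : K, ∑ ρ ∈ V K h, ∑ θ ∈ V K h, F (C c * X ^ (2 * h) + (θ ^ 2 + X * ρ ^ 2))

/-- **S_disc** (the discriminant of `A ^ 2 + X` modulo `8`), over any nontrivial commutative ring `S`.

`F = A^2 + X = ∏ (X - v_i)`, `i < 2m`, `F' = 1 + 2 A A'`; put `w_i = A(v_i) A'(v_i)`.  Then
`∏ (1 + 2 w_i) = 1 + 2 e1 + 4 e2 + 8 (…)`, `2 e2 = e1^2 - ∑ w_i^2`, so
`∏ F'(v_i) ≡ 1 + 2 p + 2 p^2 - 2 ∑ w_i^2 (mod 8)`, `p = ∑ w_i`.
As `A(v_i)^2 = -v_i`: `w_i^2 = -v_i A'(v_i)^2`.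
Trace formula: for every polynomial `g`, `∑ g(v_i) = rs (g F') F`  (`F' = ∑_i ∏_{k≠i} (X - v_k)`,
`g ∏_{k≠i} (X - v_k) ≡ g(v_i) ∏_{k≠i} (X - v_k)` modulo `F`, and this remainder has leading
coefficient `g(v_i)` at `X^(2m-1)`).
Computation of the residues (think of `rs N D` as the coefficient of `t^(-1)` of `N / D`; use
`rs_mul_right`, `rs_add`, `rs_small'`, and for degree `-1` the leading coefficient; `m ≥ 1`):
`1/F = 1/A^2 - X/(A^2 F) = 1/A^2 - X/A^4 + X^2/(A^4 F)`.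
* `p = rs (A A' + 2 A^2 A'^2) F`.  `A A'/F = A'/A - X A'/(A F)`, `rs A' A = m`, and the last fraction
  has degree `1 + (m-1) - m - 2m ≤ -2`; `A^2 A'^2/F = A'^2 - X A'^2/F`, `rs (X A'^2) F = m^2`
  (degree `-1`, `X A'^2 = m^2 X^(2m-1) + …`).  So `p = m - 2 m^2`.
* `T = ∑ v_i A'(v_i)^2 = rs (X A'^2 + 2 X A A'^3) F = m^2 + 2 rs (X A A'^3) F`, and
  `X A A'^3/F = X A'^3/A - X^2 A'^3/(A F)`, where `rs (X^2 A'^3) (A F) = m^3` (degree `-1`).
  So `T = m^2 + 2 rs (X A'^3) A - 2 m^3`.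
Hence `∏ F'(v_i) ≡ 1 + 2p + 2p^2 + 2T ≡ 1 + 2 (m - 2m^2) + 2 (m - 2m^2)^2 + 2 m^2 - 4 m^3 +
4 rs (X A'^3) A ≡ 1 - 2 m + 4 rs (X A'^3) A (mod 8)` (`m^3 ≡ m mod 2`).
(If a leading coefficient such as `m^2` is zero in `S` then `natDegree` drops; so it is better to prove
`rs N D = N.coeff (deg D - 1)` whenever `deg N < deg D`.) -/
def SDisc : Prop := ∀ (S : Type) [CommRing S] [Nontrivial S] (m : ℕ) (A : S[X])
  (v : Fin (2 * m) → S), 1 ≤ m → A.Monic → A.natDegree = m →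
  A ^ 2 + X = ∏ i, (X - C (v i)) →
  (8 : S) ∣ (∏ i, (derivative (A ^ 2 + X)).eval (v i)) - (1 - 2 * (m : S) + 4 * rs (X * derivative A ^ 3) A)

local instance : Fact (Nat.Prime 2) := ⟨Nat.prime_two⟩

/-- **S_sign** (Stickelberger's theorem in characteristic two).

`W = WittVector 2`, `f` monic squarefree over `K` of degree `n`, `F` a monic lift of `f` to `W(K)`.
Over `W(K̄)`, `K̄ = AlgebraicClosure K`, `F` splits with simple roots: `F = ∏ (X - v_i)`
(Hensel's lemma for each root of `f`; the roots of `f` are distinct), and the lift `φ` of the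
`q`-power Frobenius permutes the `v_i` with one cycle for each irreducible factor of `f`.  So
`Δ = ∏_{i<k} (v_k - v_i)` satisfies `φ Δ = (-1)^(n - r) Δ`, `r` the number of irreducible factors,
`mu f = (-1)^r`, and `Δ^2 = (-1)^(n(n-1)/2) ∏ F'(v_i)`.
If `(-1)^(n(n-1)/2) ∏ F'(v_i) ≡ 1 + 4 y (mod 8)` with `y ∈ W(K)`: choose `z ∈ W(K̄)` with
`z̄^2 + z̄ = ȳ` (reductions); `(1 + 2z)^2 = 1 + 4 (z + z^2) ≡ 1 + 4 y (mod 8)`.  So
`Δ^2 ≡ (1 + 2z)^2 (mod 8)`, hence `Δ ≡ ±(1 + 2z) (mod 4)`.  Applying `φ`: if `ȳ = u^2 + u` with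
`u ∈ K` then `z̄ ∈ K`, `φ z ≡ z (mod 2)`, `φ(1+2z) ≡ 1 + 2z (mod 4)`, so `φ Δ ≡ Δ (mod 4)` and
`φ Δ = Δ` (`2 ≢ 0 mod 4`, `Δ` a unit); otherwise `φ z ≡ z + 1 (mod 2)`,
`φ (1 + 2z) ≡ 1 + 2z + 2 ≡ -(1+2z) (mod 4)` and `φ Δ = -Δ`.  So `(-1)^(n-r) = psi ȳ`.

The files `Pool/Agent/H524/{Cycle,Witt,Disc}.lean` of this run (helper524, on origin/main) contain: the
Frobenius cycles (`exists_cycle`, `exists_cycle'`), `frobLift`, `emb`, `red`, `exists_root_lift`
(Hensel), the Vandermonde product `vdm`, `vdm_rotate`, `prod_eval_derivative`, and `EvenC/EvenD`,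
`sign_contradiction` a very similar final argument for a product of two irreducible polynomials. -/
def SSign : Prop := ∀ (K : Type) [Field K] [Fintype K] [CharP K 2] (n : ℕ) (f : K[X]),
  f.Monic → f.natDegree = n → Squarefree f →
  ∀ F : (WittVector 2 K)[X], F.Monic → F.map (WittVector.constantCoeff) = f →
  ∃ v : Fin n → WittVector 2 (AlgebraicClosure K),
    F.map (WittVector.map (algebraMap K (AlgebraicClosure K))) = ∏ i, (X - C (v i)) ∧
    ∀ y : WittVector 2 K,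
      (8 : WittVector 2 (AlgebraicClosure K)) ∣ (-1) ^ (n * (n - 1) / 2) *
        (∏ i, (derivative (F.map (WittVector.map (algebraMap K (AlgebraicClosure K))))).eval (v i)) -
        (1 + 4 * WittVector.map (algebraMap K (AlgebraicClosure K)) y) →
      (-1) ^ n * mu f = psi (WittVector.constantCoeff y)

/-- **S_parity** (the parity formula): from `SDisc` and `SSign`.

`f = a^2 + X` is squarefree (`f' = 1`) monic of degree `n = 2m`.  Choose a monic lift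
`A ∈ W(K)[X]` of `a` (`WittVector.constantCoeff` is surjective; see `exists_monic_lift` in
`Pool/Agent/H524/EvenA.lean`), `F = A^2 + X`.  With `ι = W(K) → W(K̄)`, `F.map ι = (A.map ι)^2 + X`,
`SDisc` gives `∏ F'(v_i) ≡ 1 - 2m + 4 ι(r) (mod 8)`, `r = rs (X A'^3) A ∈ W(K)`, with
`constantCoeff r = rs (X a'^3) a` (`rs` commutes with ring homomorphisms for monic denominators:
`Polynomial.map_modByMonic`).  `(-1)^(n(n-1)/2) = (-1)^(m(2m-1)) = (-1)^m` and
`(-1)^m (1 - 2m) ≡ 1 + 4 y_m (mod 8)` with `y_m ∈ {0, 1}` depending only on `m mod 4`, and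
`(-1)^m 4 r ≡ 4 r`.  So `mu f = psi (y_m + rs (X a'^3) a) = psi (y_m) * ph a`. -/
def SParity : Prop := ∀ (K : Type) [Field K] [Fintype K] [CharP K 2] (m : ℕ), 1 ≤ m →
  ∃ s : ℤ, (s = 1 ∨ s = -1) ∧ ∀ a ∈ M K m, mu (a ^ 2 + X) = s * ph a

end Pool.Agent.H290.CT
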